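import Pool.Agent.MP_2d5e52_al.NFinPd
import Pool.Agent.MP_2d5e52_al.TorVanish

set_option autoImplicit false

open CategoryTheory CategoryTheory.Limits
open Pool.Agent.MP_2d5e52_al

namespace Pool.Agent.Results.MP_2d5e52_al.EveryField

theorem fres_pd (R : Type) [CommRing R] (n : ℕ) (N : ModuleCat.{0} R) (h : FRes R n N) :
    HasProjectiveDimensionLE N n := by
  induction n generalizing N with
  | zero =>
    obtain ⟨h1, h2⟩ := h
    have h3 : Module.Projective R N := inferInstance
    have h4 : Projective N := (IsProjective.iff_projective N).mp h3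
    exact inferInstance
  | succ n ih =>
    obtain ⟨m, g, hg, hK⟩ := h
    have h1 := ih _ hK
    let S : ShortComplex (ModuleCat.{0} R) :=
      ShortComplex.mk (ModuleCat.ofHom (LinearMap.ker g).subtype) (ModuleCat.ofHom g) (by
        ext x
        exact x.2)
    have hS : S.ShortExact := by
      refine { exact := ?_, mono_f := ?_, epi_g := ?_ }
      · rw [ShortComplex.moduleCat_exact_iff]
        intro x hx
        exact ⟨⟨x, hx⟩, rfl⟩
      · rw [ModuleCat.mono_iff_injective]
        exact Subtype.val_injective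
      · rw [ModuleCat.epi_iff_surjective]
        exact hg
    have h2 : Projective S.X₂ :=
      (IsProjective.iff_projective _).mp (inferInstance : Module.Projective R (Fin m → R))
    exact (hS.hasProjectiveDimensionLT_X₃_iff n h2).2 h1

/-- For every field `k` there are a Noetherian local `k`-algebra `R` of dimension `3`, an element
`z` and a finitely generated `R`-module `N` of finite projective dimension with `Tor_i(R/z, N) = 0`
for all `i ≥ 1`, `dim R/z = 3`, `dim N ≥ 1` and `dim (R/z ⊗ N) = 0`. -/
theorem result (k : Type) [Field k] :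
    ∃ (R : Type) (_ : CommRing R) (_ : Algebra k R) (_ : IsNoetherianRing R) (_ : IsLocalRing R)
      (z : R) (N : Type) (_ : AddCommGroup N) (_ : Module R N) (_ : Module.Finite R N),
      (∀ i : ℕ, 1 ≤ i → IsZero (((CategoryTheory.Tor (ModuleCat.{0} R) i).obj
        (ModuleCat.of R (R ⧸ Ideal.span {z}))).obj (ModuleCat.of R N))) ∧
      HasProjectiveDimensionLE (ModuleCat.of R N) 3 ∧
      ringKrullDim R = 3 ∧ Module.supportDim R (R ⧸ Ideal.span {z}) = 3 ∧
      1 ≤ Module.supportDim R N ∧
      Module.supportDim R (TensorProduct R (R ⧸ Ideal.span {z}) N) = 0 ∧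
      ringKrullDim R + Module.supportDim R (TensorProduct R (R ⧸ Ideal.span {z}) N) <
        Module.supportDim R (R ⧸ Ideal.span {z}) + Module.supportDim R N := by
  have h1 := three_le_dim_M k
  have h2 := one_le_dim_N k
  have h3 := dim_le k
  have h4 := dim_tensor_le k
  have h5 : Module.supportDim (Rk k) (Rk k ⧸ Ideal.span {el k 4}) ≤ ringKrullDim (Rk k) :=
    Module.supportDim_le_ringKrullDim (Rk k) (Rk k ⧸ Ideal.span {el k 4})
  have h6 : ringKrullDim (Rk k) = 3 := le_antisymm h3 (h1.trans h5)
  have h7 : Module.supportDim (Rk k) (Rk k ⧸ Ideal.span {el k 4}) = 3 :=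
    le_antisymm (h5.trans h3) h1
  have hM : Nontrivial (Rk k ⧸ Ideal.span {el k 4}) := by
    by_contra h
    rw [not_nontrivial_iff_subsingleton] at h
    rw [Module.supportDim_eq_bot_of_subsingleton] at h7
    exact absurd h7 (by decide)
  have hN : Nontrivial (N k) := by
    by_contra h
    rw [not_nontrivial_iff_subsingleton] at h
    rw [Module.supportDim_eq_bot_of_subsingleton] at h2
    exact absurd h2 (by decide)
  have h8 : Module.supportDim (Rk k) (TensorProduct (Rk k) (Rk k ⧸ Ideal.span {el k 4}) (N k)) =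
      0 := by
    refine le_antisymm h4 ?_
    have h9 : Nontrivial (TensorProduct (Rk k) (Rk k ⧸ Ideal.span {el k 4}) (N k)) := by
      refine (TensorProduct.quotTensorEquivQuotSMul (N k)
        (Ideal.span {el k 4})).toEquiv.nontrivial_congr.2 ?_
      rw [Submodule.Quotient.nontrivial_iff]
      refine (Submodule.top_ne_ideal_smul_of_le_jacobson_annihilator ?_).symm
      refine le_trans ?_ (IsLocalRing.maximalIdeal_le_jacobson _)
      rw [Ideal.span_singleton_le_iff_mem]
      exact el_mem k 4
    have h10 := Module.supportDim_ne_bot_of_nontrivial (Rk k)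
      (TensorProduct (Rk k) (Rk k ⧸ Ideal.span {el k 4}) (N k))
    obtain ⟨a, ha⟩ := WithBot.ne_bot_iff_exists.1 h10
    rw [← ha]
    exact_mod_cast (bot_le : (0 : ℕ∞) ≤ a)
  refine ⟨Rk k, inferInstance, ((algebraMap (R0 k) (Rk k)).comp (algebraMap k (R0 k))).toAlgebra,
    inferInstance, inferInstance, el k 4, N k, inferInstance,
    inferInstance, inferInstance, ?_, fres_pd _ 3 _ (N_fres k), h6, h7, h2, h8, ?_⟩
  · intro i hi
    obtain ⟨j, rfl⟩ : ∃ j, i = j + 1 := ⟨i - 1, by omega⟩
    exact Good.tor_isZero (el_rel1 k) (el_rel2 k) (el_rel3 k) (Rk_good k)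
      (N := ModuleCat.of _ (N k)) (N_good k) j
  · rw [h6, h7, h8]
    exact lt_of_lt_of_le (by decide : (3 : WithBot ℕ∞) + 0 < 3 + 1) (add_le_add_right h2 3)

end Pool.Agent.Results.MP_2d5e52_al.EveryField
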